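import Pool.Agent.Q260.OE.Stm
import Pool.Agent.Helper625.Planch

set_option autoImplicit false

/-!
# Project OE (helper260), job FFB: bounds and Parseval for the local profile
-/

namespace Pool.Agent.Q210.OE

open Complex MeasureTheory Filter Topology Set
open Pool.Agent.Q260.OE
open scoped FourierTransform Real

theorem cont_int (m : ℕ) (v : ℝ) :
    Continuous (fun u : ℝ => (((pm m).eval u : ℝ) : ℂ) * cexp (-(u * v * I))) := by
  have h1 : Continuous (fun u : ℝ => (pm m).eval u) := (pm m).continuous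
  fun_prop

theorem FF_cont (m : ℕ) : Continuous (FF m) := by
  unfold FF
  apply intervalIntegral.continuous_parametric_intervalIntegral_of_continuous'
  have h1 : Continuous (fun u : ℝ => (pm m).eval u) := (pm m).continuous
  have h2 : Continuous (fun p : ℝ × ℝ => (((pm m).eval p.2 : ℝ) : ℂ)) :=
    Complex.continuous_ofReal.comp (h1.comp continuous_snd)
  show Continuous (fun p : ℝ × ℝ => (((pm m).eval p.2 : ℝ) : ℂ) * cexp (-((p.2 : ℂ) * (p.1 : ℂ) * I)))
  fun_prop

theorem norm_e (u v : ℝ) : ‖cexp (-(u * v * I))‖ = 1 := by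
  have : (-((u : ℂ) * v * I)) = ((-(u * v) : ℝ) : ℂ) * I := by push_cast; ring
  rw [this, Complex.norm_exp_ofReal_mul_I]

theorem FF_le (m : ℕ) (p : Polynomial ℝ) (v : ℝ) :
    ‖∫ u in (0 : ℝ)..1, ((p.eval u : ℝ) : ℂ) * cexp (-(u * v * I))‖ ≤ ∫ u in (0 : ℝ)..1, |p.eval u| := by
  refine (intervalIntegral.norm_integral_le_integral_norm zero_le_one).trans (le_of_eq ?_)
  refine intervalIntegral.integral_congr fun u _ => ?_
  rw [norm_mul, norm_e, mul_one, Complex.norm_real, Real.norm_eq_abs]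

/-- integration by parts -/
theorem FF_ibp (m : ℕ) (v : ℝ) :
    (-(v * I)) * FF m v = (((pm m).eval 1 : ℝ) : ℂ) * cexp (-(v * I)) - (((pm m).eval 0 : ℝ) : ℂ) -
      ∫ u in (0 : ℝ)..1, ((((pm m).derivative).eval u : ℝ) : ℂ) * cexp (-(u * v * I)) := by
  have hu : ∀ x ∈ uIcc (0 : ℝ) 1, HasDerivAt (fun u : ℝ => (((pm m).eval u : ℝ) : ℂ))
      ((((pm m).derivative).eval x : ℝ) : ℂ) x := by
    intro x _
    exact ((pm m).hasDerivAt x).ofReal_comp
  have hv : ∀ x ∈ uIcc (0 : ℝ) 1, HasDerivAt (fun u : ℝ => cexp (-(u * v * I)))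
      (cexp (-(x * v * I)) * (-(v * I))) x := by
    intro x _
    have h1 : HasDerivAt (fun u : ℝ => (-((u : ℂ) * v * I))) (-(v * I)) x := by
      have h2 : HasDerivAt (fun u : ℝ => (u : ℂ)) 1 x := Complex.ofRealCLM.hasDerivAt
      have := ((h2.mul_const (v : ℂ)).mul_const I).fun_neg
      rw [one_mul] at this
      exact this
    exact h1.cexp
  have hc1 : Continuous (fun u : ℝ => (((pm m).derivative).eval u)) := (pm m).derivative.continuous
  have h := intervalIntegral.integral_mul_deriv_eq_deriv_mul hu hv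
    (by
      apply Continuous.intervalIntegrable
      fun_prop)
    (by
      apply Continuous.intervalIntegrable
      fun_prop)
  have e1 : (-(v * I)) * FF m v = ∫ u in (0 : ℝ)..1, (((pm m).eval u : ℝ) : ℂ) * (cexp (-(u * v * I)) * (-(v * I))) := by
    unfold FF
    rw [← intervalIntegral.integral_const_mul]
    refine intervalIntegral.integral_congr fun u _ => ?_
    show _ = _
    ring
  rw [e1, h]
  simp

theorem FF_bound (m : ℕ) : ∃ C : ℝ, 0 < C ∧ ∀ v : ℝ, ‖FF m v‖ ≤ C / (1 + |v|) := by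
  obtain ⟨M0, hM0⟩ : ∃ M0 : ℝ, M0 = ∫ u in (0 : ℝ)..1, |(pm m).eval u| := ⟨_, rfl⟩
  obtain ⟨M1, hM1⟩ : ∃ M1 : ℝ, M1 = |(pm m).eval 1| + |(pm m).eval 0| +
    ∫ u in (0 : ℝ)..1, |((pm m).derivative).eval u| := ⟨_, rfl⟩
  have h0 : 0 ≤ M0 := by
    rw [hM0]
    exact intervalIntegral.integral_nonneg zero_le_one fun u _ => abs_nonneg _
  have h1 : 0 ≤ M1 := by
    rw [hM1]
    have := intervalIntegral.integral_nonneg (μ := volume) (f := fun u => |((pm m).derivative).eval u|)
      (zero_le_one (α := ℝ)) fun u _ => abs_nonneg _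
    positivity
  refine ⟨M0 + M1 + 1, by linarith, fun v => ?_⟩
  have hv : 0 ≤ |v| := abs_nonneg v
  rw [le_div_iff₀ (by linarith)]
  have e0 : ‖FF m v‖ ≤ M0 := by
    rw [hM0]
    exact FF_le m (pm m) v
  have e1 : |v| * ‖FF m v‖ ≤ M1 := by
    have h2 := congrArg norm (FF_ibp m v)
    rw [norm_mul, norm_neg, norm_mul, Complex.norm_I, mul_one, Complex.norm_real, Real.norm_eq_abs] at h2
    rw [h2]
    refine (norm_sub_le _ _).trans ?_
    rw [hM1]
    refine add_le_add ((norm_sub_le _ _).trans ?_) (FF_le m _ v)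
    rw [norm_mul, Complex.norm_real, Complex.norm_real, Real.norm_eq_abs, Real.norm_eq_abs]
    have h3 := norm_e 1 v
    rw [Complex.ofReal_one, one_mul] at h3
    rw [h3, mul_one]
  nlinarith

/-- the function with transform `FF` -/
noncomputable def pf (m : ℕ) (x : ℝ) : ℂ := (Ioc (0 : ℝ) 1).indicator (fun u => (((pm m).eval u : ℝ) : ℂ)) x

theorem pf_int (m : ℕ) : Integrable (pf m) := by
  unfold pf
  rw [integrable_indicator_iff measurableSet_Ioc]
  have h1 : Continuous (fun u : ℝ => (pm m).eval u) := (pm m).continuous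
  have h2 : Continuous (fun u : ℝ => (((pm m).eval u : ℝ) : ℂ)) := by fun_prop
  exact (h2.integrableOn_Icc (a := 0) (b := 1)).mono_set Ioc_subset_Icc_self

theorem pf_sq (m : ℕ) (x : ℝ) : ‖pf m x‖ ^ 2 = (Ioc (0 : ℝ) 1).indicator (fun u => ((pm m).eval u) ^ 2) x := by
  unfold pf
  by_cases hx : x ∈ Ioc (0 : ℝ) 1
  · rw [indicator_of_mem hx, indicator_of_mem hx, Complex.norm_real, Real.norm_eq_abs, sq_abs]
  · rw [indicator_of_notMem hx, indicator_of_notMem hx]
    simp

theorem pf_mem (m : ℕ) : MemLp (pf m) 2 := by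
  rw [memLp_two_iff_integrable_sq_norm (pf_int m).aestronglyMeasurable]
  simp only [pf_sq]
  rw [integrable_indicator_iff measurableSet_Ioc]
  have h1 : Continuous (fun u : ℝ => (pm m).eval u) := (pm m).continuous
  have h2 : Continuous (fun u : ℝ => ((pm m).eval u) ^ 2) := by fun_prop
  exact (h2.integrableOn_Icc (a := 0) (b := 1)).mono_set Ioc_subset_Icc_self

theorem four_pf (m : ℕ) (ξ : ℝ) : 𝓕 (pf m) ξ = FF m (2 * π * ξ) := by
  rw [Real.fourier_eq']
  unfold FF
  rw [intervalIntegral.integral_of_le zero_le_one, ← integral_indicator measurableSet_Ioc]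
  refine integral_congr_ae (Eventually.of_forall fun x => ?_)
  simp only [pf]
  by_cases hx : x ∈ Ioc (0 : ℝ) 1
  · rw [indicator_of_mem hx, indicator_of_mem hx, smul_eq_mul, mul_comm]
    congr 2
    simp only [RCLike.inner_apply, conj_trivial]
    push_cast
    ring
  · rw [indicator_of_notMem hx, indicator_of_notMem hx, smul_zero]

/-- **FFB** -/
theorem t_FFB (hLEG : S_LEG) : S_FFB := by
  intro m
  have hpi := Real.pi_pos
  obtain ⟨hm, hpl⟩ := Pool.Agent.Helper625.Planch.plancherel (pf m) (pf_int m) (pf_mem m)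
  have hFi : Integrable (fun w : ℝ => ‖𝓕 (pf m) w‖ ^ 2) :=
    (memLp_two_iff_integrable_sq_norm hm.aestronglyMeasurable).1 hm
  have e1 : ∀ v : ℝ, ‖FF m v‖ ^ 2 = (fun w : ℝ => ‖𝓕 (pf m) w‖ ^ 2) (v / (2 * π)) := by
    intro v
    simp only
    rw [four_pf]
    congr 3
    field_simp
  refine ⟨FF_cont m, FF_bound m, ?_, ?_⟩
  · simp only [e1]
    exact hFi.comp_div (by positivity)
  · simp only [e1]
    rw [Measure.integral_comp_div (fun w : ℝ => ‖𝓕 (pf m) w‖ ^ 2) (2 * π), hpl,
      abs_of_pos (by positivity), smul_eq_mul]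
    simp only [pf_sq]
    rw [integral_indicator measurableSet_Ioc, ← intervalIntegral.integral_of_le zero_le_one,
      (hLEG m).2.2.2.1]
    field_simp

end Pool.Agent.Q210.OE
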