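import Pool.Agent.Q260.OE.Stm
import Pool.Agent.Q210.BD.NrhR

set_option autoImplicit false

/-!
# Project OE (helper260), job XW: the change of variables `x = exp (-w)`
-/

namespace Pool.Agent.Q210.OE

open Complex MeasureTheory Filter Topology Set
open Pool.Agent.Q260.OE
open Pool.Agent.Q286.BD (difR JR)

theorem exp_neg_deriv (S : Set ℝ) : ∀ u ∈ S, HasDerivWithinAt (fun u : ℝ => Real.exp (-u)) (-Real.exp (-u)) S u := by
  intro u _
  have h1 : HasDerivAt (fun u : ℝ => Real.exp (-u)) (-Real.exp (-u)) u := by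
    have := (hasDerivAt_neg u).exp
    simpa using this
  exact h1.hasDerivWithinAt

theorem exp_neg_inj (S : Set ℝ) : InjOn (fun u : ℝ => Real.exp (-u)) S := by
  intro u _ v _ huv
  have := Real.exp_injective huv
  linarith

theorem sub_set (f : ℝ → ℝ) (S : Set ℝ) (hS : MeasurableSet S) :
    ∫ x in (fun u : ℝ => Real.exp (-u)) '' S, f x = ∫ w in S, f (Real.exp (-w)) * Real.exp (-w) := by
  rw [integral_image_eq_integral_abs_deriv_smul hS (exp_neg_deriv S) (exp_neg_inj S) f]
  refine setIntegral_congr_fun hS fun w _ => ?_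
  rw [abs_neg, abs_of_pos (Real.exp_pos _), smul_eq_mul, mul_comm]

theorem sub_int (f : ℝ → ℝ) (S : Set ℝ) (hS : MeasurableSet S) :
    IntegrableOn f ((fun u : ℝ => Real.exp (-u)) '' S) ↔
      IntegrableOn (fun w => f (Real.exp (-w)) * Real.exp (-w)) S := by
  rw [integrableOn_image_iff_integrableOn_abs_deriv_smul hS (exp_neg_deriv S) (exp_neg_inj S) f]
  refine integrableOn_congr_fun (fun w _ => ?_) hS
  rw [abs_neg, abs_of_pos (Real.exp_pos _), smul_eq_mul, mul_comm]

theorem im_univ : (fun u : ℝ => Real.exp (-u)) '' univ = Ioi 0 := by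
  ext y
  constructor
  · rintro ⟨u, -, rfl⟩
    exact Real.exp_pos _
  · intro hy
    exact ⟨-Real.log y, mem_univ _, by simp [Real.exp_log hy]⟩

theorem im_Ico (s t : ℝ) : (fun u : ℝ => Real.exp (-u)) '' Ico s t = Ioc (Real.exp (-t)) (Real.exp (-s)) := by
  ext y
  constructor
  · rintro ⟨u, ⟨h1, h2⟩, rfl⟩
    exact ⟨Real.exp_lt_exp.2 (by linarith), Real.exp_le_exp.2 (by linarith)⟩
  · rintro ⟨h1, h2⟩
    have hy : 0 < y := (Real.exp_pos _).trans h1
    refine ⟨-Real.log y, ⟨?_, ?_⟩, by simp [Real.exp_log hy]⟩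
    · have := (Real.log_le_iff_le_exp hy).2 h2
      linarith
    · have := (Real.lt_log_iff_exp_lt hy).2 h1
      linarith

theorem im_Iio (s : ℝ) : (fun u : ℝ => Real.exp (-u)) '' Iio s = Ioi (Real.exp (-s)) := by
  ext y
  constructor
  · rintro ⟨u, h1, rfl⟩
    have h1' : u < s := h1
    exact Real.exp_lt_exp.2 (by linarith)
  · intro h1
    have hy : 0 < y := (Real.exp_pos _).trans h1
    refine ⟨-Real.log y, ?_, by simp [Real.exp_log hy]⟩
    have := (Real.lt_log_iff_exp_lt hy).2 h1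
    show -Real.log y < s
    linarith

theorem im_Ici (s : ℝ) : (fun u : ℝ => Real.exp (-u)) '' Ici s = Ioc 0 (Real.exp (-s)) := by
  ext y
  constructor
  · rintro ⟨u, h1, rfl⟩
    have h1' : s ≤ u := h1
    exact ⟨Real.exp_pos _, Real.exp_le_exp.2 (by linarith)⟩
  · rintro ⟨hy, h2⟩
    refine ⟨-Real.log y, ?_, by simp [Real.exp_log hy]⟩
    have := (Real.log_le_iff_le_exp hy).2 h2
    show s ≤ -Real.log y
    linarith

/-- **XW** -/
theorem t_XW : S_XW := by
  refine ⟨fun a ha => ?_, fun f s t _ => ?_, fun f s => ?_, fun f s => ?_⟩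
  · have h1 := Pool.Agent.Q210.BD.intR a ha
    constructor
    · rw [← im_univ, sub_int _ _ MeasurableSet.univ, integrableOn_univ] at h1
      exact h1
    · unfold JR De
      rw [← im_univ, sub_set _ _ MeasurableSet.univ, setIntegral_univ]
  · rw [← im_Ico, sub_set _ _ measurableSet_Ico]
  · rw [← im_Iio, sub_set _ _ measurableSet_Iio]
  · rw [← im_Ici, sub_set _ _ measurableSet_Ici]

end Pool.Agent.Q210.OE
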